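import Pool.Agent.PV3.Stmts

/-!
Squad PV3 (MP_e25c73_gt), module AR: the basic facts on areas of compact sets.
-/

set_option autoImplicit false

open MeasureTheory Metric Set Filter Topology Pointwise

namespace PV3.H40

open PV PV3

variable {n : ℕ}

theorem proj_inner (w : E n) (hw : ‖w‖ = 1) (x : E n) : inner ℝ (proj w x) w = (0 : ℝ) := by
  unfold proj
  rw [inner_sub_left, inner_smul_left, real_inner_self_eq_norm_sq, hw]
  simp

theorem proj_continuous (w : E n) : Continuous (fun x : E n => proj w x) := by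
  unfold proj
  fun_prop

theorem ww (w : E n) (hw : ‖w‖ = 1) : inner ℝ w w = (1 : ℝ) := by
  rw [real_inner_self_eq_norm_sq, hw]; norm_num

theorem Pr_image (w : E n) (S : Set (E n)) :
    Pr w S = (fun p : E n × ℝ => proj w p.1 + p.2 • w) '' (S ×ˢ Icc (0 : ℝ) 1) := by
  ext y
  constructor
  · rintro ⟨x, hx, s, hs, rfl⟩
    exact ⟨(x, s), ⟨hx, hs⟩, rfl⟩
  · rintro ⟨⟨x, s⟩, ⟨hx, hs⟩, rfl⟩
    exact ⟨x, hx, s, hs, rfl⟩

theorem Pr_compact (w : E n) (S : Set (E n)) (hS : IsCompact S) : IsCompact (Pr w S) := by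
  rw [Pr_image]
  refine (hS.prod isCompact_Icc).image ?_
  exact ((proj_continuous w).comp continuous_fst).add (continuous_snd.smul continuous_const)

theorem Pr_mono (w : E n) {S S' : Set (E n)} (h : S ⊆ S') : Pr w S ⊆ Pr w S' := by
  rintro y ⟨x, hx, s, hs, rfl⟩
  exact ⟨x, h hx, s, hs, rfl⟩

/-- the functional `x ↦ ⟨x, w⟩` -/
noncomputable def fn (w : E n) : E n →ₗ[ℝ] ℝ where
  toFun x := inner ℝ x w
  map_add' x y := inner_add_left x y w
  map_smul' r x := by
    rw [inner_smul_left]; simp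

theorem fn_apply (w x : E n) : fn w x = inner ℝ x w := rfl

/-- `e ↦ proj w e + ⟨e,w⟩ v` -/
noncomputable def tr (w v : E n) : E n →ₗ[ℝ] E n := LinearMap.transvection (fn w) (v - w)

theorem tr_apply (w v e : E n) : tr w v e = proj w e + (inner ℝ e w : ℝ) • v := by
  unfold tr proj
  rw [LinearMap.transvection.apply, fn_apply, smul_sub]
  abel

theorem tr_det (w v : E n) (hw : ‖w‖ = 1) : LinearMap.det (tr w v) = inner ℝ v w := by
  unfold tr
  rw [LinearMap.transvection.det, fn_apply, inner_sub_left, ww w hw]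
  ring

theorem tr_pt (w v : E n) (hw : ‖w‖ = 1) (x : E n) (s : ℝ) :
    tr w v (proj w x + s • w) = proj w x + s • v := by
  rw [tr_apply, inner_add_left, proj_inner w hw, inner_smul_left, ww w hw]
  have h : proj w (proj w x + s • w) = proj w x := by
    have h1 : inner ℝ (proj w x + s • w) w = s := by
      rw [inner_add_left, proj_inner w hw, inner_smul_left, ww w hw]; simp
    show proj w x + s • w - (inner ℝ (proj w x + s • w) w : ℝ) • w = proj w x
    rw [h1]; abel
  rw [h]
  simp

theorem vol_image (w v : E n) (hw : ‖w‖ = 1) (S : Set (E n)) (z : E n) :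
    vl ((fun e => z + tr w v e) '' Pr w S) = |inner ℝ v w| * ar w S := by
  have h1 : (fun e => z + tr w v e) '' Pr w S = (fun y => z + y) '' (tr w v '' Pr w S) := by
    rw [image_image]
  unfold vl ar
  rw [h1, image_add_left, measure_preimage_add, Measure.addHaar_image_linearMap, tr_det w v hw,
    ENNReal.toReal_mul, ENNReal.toReal_ofReal (abs_nonneg _)]
  rfl


theorem slab (w : E n) (hw : ‖w‖ = 1) (S : Set (E n)) (hS : IsCompact S) (a b : ℝ) (hab : a ≤ b) :
    vl {x | x ∈ S ∧ a ≤ inner ℝ x w ∧ inner ℝ x w ≤ b} ≤ (b - a) * ar w S := by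
  have hc : IsCompact ((fun e => a • w + tr w ((b - a) • w) e) '' Pr w S) := by
    refine (Pr_compact w S hS).image ?_
    exact continuous_const.add (LinearMap.continuous_of_finiteDimensional _)
  have hsub : {x | x ∈ S ∧ a ≤ inner ℝ x w ∧ inner ℝ x w ≤ b} ⊆
      (fun e => a • w + tr w ((b - a) • w) e) '' Pr w S := by
    rintro x ⟨hx, h1, h2⟩
    set σ : ℝ := (inner ℝ x w - a) / (b - a) with hσ
    have hσ0 : 0 ≤ σ := div_nonneg (by linarith) (by linarith)
    have hσ1 : σ ≤ 1 := by
      rcases eq_or_lt_of_le hab with h | h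
      · rw [hσ, h]; simp
      · rw [hσ, div_le_one (by linarith)]; linarith
    have hσe : σ * (b - a) = inner ℝ x w - a := by
      rcases eq_or_lt_of_le hab with h | h
      · have : inner ℝ x w = a := by linarith
        rw [this, h]; simp
      · rw [hσ]; field_simp
    refine ⟨proj w x + σ • w, ⟨x, hx, σ, ⟨hσ0, hσ1⟩, rfl⟩, ?_⟩
    show a • w + tr w ((b - a) • w) (proj w x + σ • w) = x
    rw [tr_pt w _ hw, smul_smul, hσe]
    unfold proj
    rw [sub_smul]; abel
  have h1 := vol_image w ((b - a) • w) hw S (a • w)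
  have h2 : |inner ℝ ((b - a) • w) w| = b - a := by
    rw [inner_smul_left, ww w hw]
    simp only [conj_trivial, mul_one]
    exact abs_of_nonneg (by linarith)
  rw [h2] at h1
  rw [← h1]
  exact ENNReal.toReal_mono hc.measure_lt_top.ne (measure_mono hsub)

theorem prism (w : E n) (hw : ‖w‖ = 1) (S : Set (E n)) (a : ℝ)
    (ha : ∀ x ∈ S, inner ℝ x w = a) (q : E n) (hq : 0 ≤ inner ℝ q w) (t : ℝ) (ht : 0 ≤ t) :
    vl {y | ∃ x ∈ S, ∃ s ∈ Icc (0 : ℝ) t, y = x + s • q} = t * inner ℝ q w * ar w S := by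
  have heq : {y | ∃ x ∈ S, ∃ s ∈ Icc (0 : ℝ) t, y = x + s • q} =
      (fun e => a • w + tr w (t • q) e) '' Pr w S := by
    ext y
    constructor
    · rintro ⟨x, hx, s, hs, rfl⟩
      set σ : ℝ := s / t with hσ
      have hσ0 : 0 ≤ σ := div_nonneg hs.1 ht
      have hσ1 : σ ≤ 1 := by
        rcases eq_or_lt_of_le ht with h | h
        · rw [hσ, ← h]; simp
        · rw [hσ, div_le_one h]; exact hs.2
      have hσe : σ * t = s := by
        rcases eq_or_lt_of_le ht with h | h
        · have h3 : s = 0 := le_antisymm (by rw [h]; exact hs.2) hs.1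
          rw [h3, ← h]; simp
        · rw [hσ]; field_simp
      refine ⟨proj w x + σ • w, ⟨x, hx, σ, ⟨hσ0, hσ1⟩, rfl⟩, ?_⟩
      show a • w + tr w (t • q) (proj w x + σ • w) = x + s • q
      rw [tr_pt w _ hw, smul_smul, hσe]
      unfold proj
      rw [ha x hx]; abel
    · rintro ⟨_, ⟨x, hx, σ, hσ, rfl⟩, rfl⟩
      refine ⟨x, hx, σ * t, ⟨mul_nonneg hσ.1 ht, mul_le_of_le_one_left ht hσ.2⟩, ?_⟩
      show a • w + tr w (t • q) (proj w x + σ • w) = x + (σ * t) • q
      rw [tr_pt w _ hw, smul_smul]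
      unfold proj
      rw [ha x hx]; abel
  rw [heq, vol_image w (t • q) hw S (a • w)]
  have h2 : |inner ℝ (t • q) w| = t * inner ℝ q w := by
    rw [inner_smul_left]
    simp only [conj_trivial]
    exact abs_of_nonneg (mul_nonneg ht hq)
  rw [h2]

theorem ar_mono (w : E n) (S S' : Set (E n)) (hS' : IsCompact S') (h : S ⊆ S') :
    ar w S ≤ ar w S' :=
  ENNReal.toReal_mono (Pr_compact w S' hS').measure_lt_top.ne (measure_mono (Pr_mono w h))

theorem Pr_iInter (w : E n) (hw : ‖w‖ = 1) (S : ℕ → Set (E n)) (hS : ∀ j, IsCompact (S j))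
    (hm : Antitone S) : Pr w (⋂ j, S j) = ⋂ j, Pr w (S j) := by
  apply subset_antisymm
  · exact subset_iInter fun j => Pr_mono w (iInter_subset S j)
  · intro y hy
    have hy' : ∀ j, ∃ x ∈ S j, proj w x = proj w y ∧ inner ℝ y w ∈ Icc (0 : ℝ) 1 := by
      intro j
      obtain ⟨x, hx, s, hs, rfl⟩ := mem_iInter.1 hy j
      have h1 : inner ℝ (proj w x + s • w) w = s := by
        rw [inner_add_left, proj_inner w hw, inner_smul_left, ww w hw]; simp
      refine ⟨x, hx, ?_, ?_⟩
      · show proj w x = proj w x + s • w - (inner ℝ (proj w x + s • w) w : ℝ) • w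
        rw [h1]; abel
      · rw [h1]; exact hs
    have hcl : IsClosed {x : E n | proj w x = proj w y} :=
      isClosed_eq (proj_continuous w) continuous_const
    have hne : (⋂ j, (S j ∩ {x : E n | proj w x = proj w y})).Nonempty := by
      refine IsCompact.nonempty_iInter_of_sequence_nonempty_isCompact_isClosed
        (fun j => S j ∩ {x : E n | proj w x = proj w y}) ?_ ?_ ?_ ?_
      · intro j
        exact inter_subset_inter_left _ (hm (Nat.le_succ j))
      · intro j
        obtain ⟨x, hx, h1, _⟩ := hy' j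
        exact ⟨x, hx, h1⟩
      · exact (hS 0).inter_right hcl
      · intro j
        exact (hS j).isClosed.inter hcl
    obtain ⟨x, hx⟩ := hne
    refine ⟨x, mem_iInter.2 fun j => (mem_iInter.1 hx j).1, inner ℝ y w,
      (hy' 0).choose_spec.2.2, ?_⟩
    have h2 : proj w x = proj w y := (mem_iInter.1 hx 0).2
    rw [h2]
    unfold proj
    abel

theorem ar_tendsto (w : E n) (hw : ‖w‖ = 1) (S : ℕ → Set (E n)) (hS : ∀ j, IsCompact (S j))
    (hm : Antitone S) : Tendsto (fun j => ar w (S j)) atTop (𝓝 (ar w (⋂ j, S j))) := by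
  have h1 : Tendsto (fun j => volume (Pr w (S j))) atTop (𝓝 (volume (⋂ j, Pr w (S j)))) := by
    refine tendsto_measure_iInter_atTop ?_ ?_ ?_
    · intro j
      exact (Pr_compact w (S j) (hS j)).isClosed.measurableSet.nullMeasurableSet
    · intro i j hij
      exact Pr_mono w (hm hij)
    · exact ⟨0, (Pr_compact w (S 0) (hS 0)).measure_lt_top.ne⟩
  rw [← Pr_iInter w hw S hS hm] at h1
  have hcap : IsCompact (⋂ j, S j) :=
    (hS 0).of_isClosed_subset (isClosed_iInter fun j => (hS j).isClosed) (iInter_subset S 0)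
  exact (ENNReal.tendsto_toReal (Pr_compact w _ hcap).measure_lt_top.ne).comp h1

/-- Module AR. -/
theorem ar_stmt : ARStmt := by
  intro n w hw
  exact ⟨fun S hS a b hab => slab w hw S hS a b hab,
    fun S _ a ha q hq t ht => prism w hw S a ha q hq t ht,
    fun S S' hS' h => ar_mono w S S' hS' h,
    fun S hS hm => ar_tendsto w hw S hS hm⟩

end PV3.H40
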